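import Pool.Agent.H.MP_57c94c_al.A

set_option autoImplicit false
open TensorProduct LinearMap

namespace Pool.Agent.Results.MP_57c94c_al.No

/-- The Sweedler sum `[f x₁] [g x₂]` in the tensor algebra `T(H)`. -/
noncomputable def sw (k H : Type) [Field k] [Ring H] [HopfAlgebra k H] (f g : H →ₗ[k] H) (x : H) : TensorAlgebra k H :=
  mul' k _ (TensorProduct.map (TensorAlgebra.ι k ∘ₗ f) (TensorAlgebra.ι k ∘ₗ g) (Coalgebra.comul x))

/-- The defining relations of the algebra `H_par`, as pairs of elements of the tensor algebra `T(H)`. -/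
def Rel (k H : Type) [Field k] [Ring H] [HopfAlgebra k H] (x y : TensorAlgebra k H) : Prop :=
  (x = TensorAlgebra.ι k 1 ∧ y = 1) ∨
  (∃ h l : H, x = TensorAlgebra.ι k h * sw k H LinearMap.id (HopfAlgebra.antipode k) l ∧
    y = sw k H (mulLeft k h) (HopfAlgebra.antipode k) l) ∨
  ∃ h l : H, x = sw k H LinearMap.id (HopfAlgebra.antipode k) h * TensorAlgebra.ι k l ∧
    y = sw k H LinearMap.id (mulRight k l ∘ₗ HopfAlgebra.antipode k) h

open Pool.Agent.H.MP_57c94c_al in
theorem result (k : Type) [Field k] [CharP k 2] : ∃ (H : Type) (_ : Ring H) (_ : HopfAlgebra k H),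
    IsSemisimpleRing H ∧ ¬ IsSemisimpleRing (RingQuot (Rel k H)) := by
  obtain ⟨G, _, _, φ, ee, ee_c, hT, N, D, c1, c2, n0, n1, p, q, r, s, e⟩ := main k
  refine ⟨F k G, inferInstance, inferInstance, inferInstance, fun ss => n1 ?_⟩
  have li : ∀ (f g : F k G →ₗ[k] F k G) t, TensorAlgebra.lift k (π φ ee) (mul' k _ (TensorProduct.map
      (TensorAlgebra.ι k ∘ₗ f) (TensorAlgebra.ι k ∘ₗ g) t)) =
      mul' k _ (TensorProduct.map (π φ ee ∘ₗ f) (π φ ee ∘ₗ g) t) := fun f g t => by
    induction t with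
    | zero => simp
    | add a c p q => simp only [map_add, p, q]
    | tmul u w => simp
  let Ψ := RingQuot.liftAlgHom k (s := Rel k (F k G)) ⟨TensorAlgebra.lift k (π φ ee), by
    rintro x y (⟨rfl, rfl⟩ | ⟨h, l, rfl, rfl⟩ | ⟨h, l, rfl, rfl⟩)
    · simp [π_ap, hT]
    · rw [map_mul, TensorAlgebra.lift_ι_apply, sw, sw, li, li]
      exact (rels φ ee_c hT h l).1
    · rw [map_mul, TensorAlgebra.lift_ι_apply, sw, sw, li, li]
      exact (rels φ ee_c hT h l).2⟩
  let j := fun h => RingQuot.mkAlgHom k (Rel k (F k G)) (TensorAlgebra.ι k h)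
  have hj : ∀ h, Ψ (j h) = π φ ee h := fun h => by simp [Ψ, j, RingQuot.liftAlgHom_mkAlgHom_apply]
  have cm : ∀ x, Commute N (Ψ x) := fun x => by
    obtain ⟨x, rfl⟩ := RingQuot.mkAlgHom_surjective k _ x
    induction x using TensorAlgebra.induction with
    | algebraMap r => simp only [AlgHom.commutes]; exact (Algebra.commute_algebraMap_right r N)
    | ι h => exact hj h ▸ c1 h
    | mul a c p q => simp only [map_mul]; exact p.mul_right q
    | add a c p q => simp only [map_add]; exact p.add_right q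
  have ha : Ψ (j p * j q * j p + j p * j r * j s * j p) = N * D := by simp only [map_add, map_mul, hj, e]
  generalize j p * j q * j p + j p * j r * j s * j p = a at ha
  obtain ⟨i, hi, ei⟩ := IsSemisimpleRing.ideal_eq_span_idempotent (Ideal.span {a})
  obtain ⟨x, hx⟩ := Ideal.mem_span_singleton'.1 (ei ▸ Ideal.subset_span rfl : i ∈ Ideal.span {a})
  obtain ⟨y, hy⟩ := Ideal.mem_span_singleton'.1 (ei ▸ Ideal.subset_span rfl : a ∈ Ideal.span {i})
  have : a = a * x * a := by rw [mul_assoc, hx, ← hy, mul_assoc, hi.eq]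
  rw [← ha, this, map_mul, map_mul, ha, ← mul_assoc, mul_assoc (N * D), ← (cm x).eq, ← mul_assoc, mul_assoc N D,
    ← c2.eq, ← mul_assoc, n0]
  simp

end Pool.Agent.Results.MP_57c94c_al.No
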